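import Pool.Agent.H523.AH.Stm3

set_option autoImplicit false

/-! # (X) the sum of the squares and the power sums (helper65) -/

namespace Pool.Agent.H65.AH

open Finset
open Pool.Agent.H523.AH

open scoped Classical

/-- geometric sums -/
noncomputable def gs (M : ℕ) (x : ℂ) : ℂ := ∑ k ∈ range M, x ^ k

theorem conj_eq {x : ℂ} (hx : ‖x‖ = 1) : (starRingEnd ℂ) x * x = 1 := by
  rw [mul_comm, Complex.mul_conj, Complex.normSq_eq_norm_sq, hx]
  norm_num

theorem gs_sq (M : ℕ) {x : ℂ} (hx : ‖x‖ = 1) :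
    ‖gs M x‖ ^ 2 = M + 2 * (∑ k ∈ Ico 1 M, ((M : ℂ) - k) * x ^ k).re := by
  induction M with
  | zero => simp [gs]
  | succ M ih =>
    have h1 : gs (M + 1) x = gs M x + x ^ M := by unfold gs; rw [sum_range_succ]
    have h2 : ‖gs (M + 1) x‖ ^ 2 = ‖gs M x‖ ^ 2 + 1 + 2 * ((starRingEnd ℂ) (gs M x) * x ^ M).re := by
      rw [h1, ← Complex.normSq_eq_norm_sq, ← Complex.normSq_eq_norm_sq, Complex.normSq_add]
      have h3 : Complex.normSq (x ^ M) = 1 := by
        rw [Complex.normSq_eq_norm_sq, norm_pow, hx]; norm_num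
      rw [h3]
      congr 2
      have h4 : (gs M x * (starRingEnd ℂ) (x ^ M)).re = ((starRingEnd ℂ) (gs M x) * x ^ M).re := by
        rw [← Complex.conj_re, map_mul, Complex.conj_conj]
      exact h4
    have h3 : (starRingEnd ℂ) (gs M x) * x ^ M = ∑ k ∈ Ico 1 (M + 1), x ^ k := by
      unfold gs
      rw [map_sum, sum_mul]
      refine sum_bij (fun k _ => M - k) ?_ ?_ ?_ ?_
      · intro k hk
        rw [mem_range] at hk
        rw [mem_Ico]
        omega
      · intro a ha b hb hab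
        rw [mem_range] at ha hb
        have : M - a = M - b := hab
        omega
      · intro b hb
        rw [mem_Ico] at hb
        exact ⟨M - b, by rw [mem_range]; omega, by show M - (M - b) = b; omega⟩
      · intro k hk
        rw [mem_range] at hk
        have e : x ^ M = x ^ k * x ^ (M - k) := by rw [← pow_add]; congr 1; omega
        rw [map_pow, e, ← mul_assoc, ← mul_pow, conj_eq hx, one_pow, one_mul]
    have h4 : ∑ k ∈ Ico 1 (M + 1), (((M + 1 : ℕ) : ℂ) - k) * x ^ k =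
        ∑ k ∈ Ico 1 M, ((M : ℂ) - k) * x ^ k + ∑ k ∈ Ico 1 (M + 1), x ^ k := by
      have h5 : ∑ k ∈ Ico 1 (M + 1), (((M + 1 : ℕ) : ℂ) - k) * x ^ k =
          ∑ k ∈ Ico 1 (M + 1), (((M : ℂ) - k) * x ^ k + x ^ k) := by
        refine sum_congr rfl fun k _ => ?_
        push_cast
        ring
      rw [h5, sum_add_distrib]
      congr 1
      rcases Nat.eq_zero_or_pos M with h | h
      · subst h; simp
      · rw [sum_Ico_succ_top (by omega)]
        simp
    rw [h2, ih, h3, h4, Complex.add_re]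
    push_cast
    ring

theorem norm_exp_sub_one (θ : ℝ) : ‖Complex.exp (θ * Complex.I) - 1‖ = 2 * |Real.sin (θ / 2)| := by
  have h := Complex.norm_exp_I_mul_ofReal_sub_one (x := θ)
  rw [mul_comm (θ : ℂ) Complex.I, h, norm_mul, Real.norm_eq_abs, Real.norm_eq_abs]
  norm_num

theorem gs_ge {M : ℕ} (hM : 1 ≤ M) {θ : ℝ} (hθ : |θ| ≤ Real.pi / M) :
    2 * M / Real.pi ≤ ‖gs M (Complex.exp (θ * Complex.I))‖ := by
  have hpi := Real.pi_pos
  have hM0 : (0 : ℝ) < M := by exact_mod_cast hM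
  rcases eq_or_ne θ 0 with h0 | h0
  · rw [h0]
    have : gs M (Complex.exp (((0 : ℝ) : ℂ) * Complex.I)) = M := by simp [gs]
    rw [this, Complex.norm_natCast, div_le_iff₀ hpi]
    nlinarith [Real.two_le_pi]
  · have h1 : gs M (Complex.exp (θ * Complex.I)) * (Complex.exp (θ * Complex.I) - 1) =
        Complex.exp (((M * θ : ℝ) : ℂ) * Complex.I) - 1 := by
      unfold gs
      rw [geom_sum_mul, ← Complex.exp_nat_mul]
      congr 2
      push_cast
      ring
    have h2 := congrArg norm h1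
    rw [norm_mul, norm_exp_sub_one, norm_exp_sub_one] at h2
    have hMθ : |M * θ / 2| ≤ Real.pi / 2 := by
      rw [abs_div, abs_mul, abs_of_pos hM0, abs_of_pos (by norm_num : (0:ℝ) < 2)]
      rw [le_div_iff₀ hM0] at hθ
      linarith
    have h3 : 2 / Real.pi * |M * θ / 2| ≤ |Real.sin (M * θ / 2)| := by
      have := Real.mul_abs_le_abs_sin hMθ
      exact this
    have h4 : |Real.sin (θ / 2)| ≤ |θ / 2| := Real.abs_sin_le_abs
    have h5 : 0 < |θ| := abs_pos.2 h0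
    have h6 : |θ / 2| = |θ| / 2 := by rw [abs_div, abs_of_pos (by norm_num : (0:ℝ) < 2)]
    have h7 : |M * θ / 2| = M * |θ| / 2 := by
      rw [abs_div, abs_mul, abs_of_pos hM0, abs_of_pos (by norm_num : (0:ℝ) < 2)]
    rw [h6] at h4
    rw [h7] at h3
    have h8 : 2 * (2 / Real.pi * (M * |θ| / 2)) ≤ ‖gs M (Complex.exp (θ * Complex.I))‖ * |θ| := by
      calc 2 * (2 / Real.pi * (M * |θ| / 2)) ≤ 2 * |Real.sin (M * θ / 2)| := by linarith
        _ = ‖gs M (Complex.exp (θ * Complex.I))‖ * (2 * |Real.sin (θ / 2)|) := h2.symm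
        _ ≤ ‖gs M (Complex.exp (θ * Complex.I))‖ * |θ| := by
          gcongr
          linarith
    have h9 : 2 * M / Real.pi * |θ| ≤ ‖gs M (Complex.exp (θ * Complex.I))‖ * |θ| := by
      refine le_trans (le_of_eq ?_) h8
      field_simp
    exact le_of_mul_le_mul_right h9 h5

/-- counting -/
theorem count_le (Z : Multiset ℂ) (p : ℂ → Prop) [DecidablePred p] (f : ℂ → ℝ) (c : ℝ) (hf : ∀ v, 0 ≤ f v)
    (hp : ∀ v ∈ Z, p v → c ≤ f v) : (Z.countP p : ℝ) * c ≤ (Z.map f).sum := by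
  induction Z using Multiset.induction_on with
  | empty => simp
  | cons a Z ih =>
    rw [Multiset.map_cons, Multiset.sum_cons]
    have h1 := ih fun v hv => hp v (Multiset.mem_cons_of_mem hv)
    by_cases h : p a
    · rw [Multiset.countP_cons_of_pos _ h]
      push_cast
      have := hp a (Multiset.mem_cons_self a Z) h
      linarith
    · rw [Multiset.countP_cons_of_neg _ h]
      have := hf a
      linarith

theorem sum_fibre (Z : Multiset ℂ) (J : ℂ → ℕ) (d : ℕ) (g : ℕ → ℝ) (hJ : ∀ u ∈ Z, J u < d) :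
    (Z.map (fun u => g (J u))).sum = ∑ j ∈ range d, (Z.countP (fun u => J u = j) : ℝ) * g j := by
  induction Z using Multiset.induction_on with
  | empty => simp
  | cons a Z ih =>
    rw [Multiset.map_cons, Multiset.sum_cons, ih fun u hu => hJ u (Multiset.mem_cons_of_mem hu)]
    have h1 : ∀ j ∈ range d, ((a ::ₘ Z).countP (fun u => J u = j) : ℝ) * g j =
        (Z.countP (fun u => J u = j) : ℝ) * g j + if J a = j then g j else 0 := by
      intro j _
      by_cases h : J a = j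
      · rw [Multiset.countP_cons_of_pos (p := fun u => J u = j) Z h, if_pos h]
        push_cast
        ring
      · rw [Multiset.countP_cons_of_neg (p := fun u => J u = j) Z h, if_neg h, add_zero]
    rw [sum_congr rfl h1, sum_add_distrib, sum_ite_eq, if_pos (mem_range.2 (hJ a (Multiset.mem_cons_self a Z)))]
    ring

/-- the points of the circle -/
noncomputable def E (d j : ℕ) : ℂ := Complex.exp (((-(2 * Real.pi * j / d) : ℝ) : ℂ) * Complex.I)

theorem norm_E (d j : ℕ) : ‖E d j‖ = 1 := Complex.norm_exp_ofReal_mul_I _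

theorem exists_j {d : ℕ} (hd : 1 ≤ d) {u : ℂ} (hu : ‖u‖ = 1) :
    ∃ j < d, ∃ θ : ℝ, |θ| ≤ Real.pi / d ∧ u * E d j = Complex.exp (θ * Complex.I) := by
  have hpi := Real.pi_pos
  have hd0 : (0 : ℝ) < d := by exact_mod_cast hd
  have hdz : (0 : ℤ) < d := by exact_mod_cast hd
  obtain ⟨t, ht⟩ : ∃ t : ℝ, t = d * u.arg / (2 * Real.pi) := ⟨_, rfl⟩
  obtain ⟨r, hr⟩ : ∃ r : ℤ, r = round t := ⟨_, rfl⟩
  have hj0 : 0 ≤ r % d := Int.emod_nonneg _ hdz.ne'
  have hj1 : r % d < d := Int.emod_lt_of_pos _ hdz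
  refine ⟨(r % d).toNat, by omega, u.arg - 2 * Real.pi * r / d, ?_, ?_⟩
  · have h1 : |t - r| ≤ 1 / 2 := by rw [hr]; exact abs_sub_round t
    have h2 : u.arg - 2 * Real.pi * r / d = 2 * Real.pi / d * (t - r) := by
      rw [ht]
      field_simp
    rw [h2, abs_mul, abs_of_pos (by positivity)]
    calc 2 * Real.pi / d * |t - r| ≤ 2 * Real.pi / d * (1 / 2) := by gcongr
      _ = _ := by ring
  · have h1 : u = Complex.exp (u.arg * Complex.I) := by
      have := Complex.norm_mul_exp_arg_mul_I u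
      rw [hu, Complex.ofReal_one, one_mul] at this
      exact this.symm
    have h2 : E d (r % d).toNat = Complex.exp (((-(2 * Real.pi * r / d) : ℝ) : ℂ) * Complex.I) := by
      unfold E
      rw [Complex.exp_eq_exp_iff_exists_int]
      refine ⟨r / d, ?_⟩
      have h3 : (((r % d).toNat : ℕ) : ℝ) = ((r % d : ℤ) : ℝ) := by
        have : (((r % d).toNat : ℕ) : ℤ) = r % d := Int.toNat_of_nonneg hj0
        exact_mod_cast this
      have h4 : (r : ℝ) = ((r % d : ℤ) : ℝ) + d * ((r / d : ℤ) : ℝ) := by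
        exact_mod_cast (Int.emod_add_mul_ediv r d).symm
      have h5 : (-(2 * Real.pi * (((r % d).toNat : ℕ) : ℝ) / d) : ℝ) =
          -(2 * Real.pi * r / d) + ((r / d : ℤ) : ℝ) * (2 * Real.pi) := by
        rw [h3, h4]
        field_simp
        ring
      rw [h5]
      push_cast
      ring
    conv_lhs => rw [h1]
    rw [h2, ← Complex.exp_add]
    congr 1
    push_cast
    ring

/-- a point close to a grid point -/
theorem big {d M : ℕ} {R : ℝ} (hM : 1 ≤ M) (hR : 0 ≤ R) (hd : 2 * (R + 1) * M ≤ d) {u v x : ℂ} (hu : ‖u‖ = 1)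
    (hv : ‖v‖ = 1) (hx : ‖x‖ = 1) {θ : ℝ} (hθ : |θ| ≤ Real.pi / d) (he : u * x = Complex.exp (θ * Complex.I))
    (hn : |d * Complex.arg (u / v) / (2 * Real.pi)| ≤ R) :
    4 * (M : ℝ) ^ 2 / Real.pi ^ 2 ≤ ‖gs M (v * x)‖ ^ 2 := by
  have hpi := Real.pi_pos
  have hM0 : (0 : ℝ) < M := by exact_mod_cast hM
  have hd0 : (0 : ℝ) < d := by nlinarith
  have hv0 : v ≠ 0 := by rw [← norm_pos_iff, hv]; exact one_pos
  have hu0 : u ≠ 0 := by rw [← norm_pos_iff, hu]; exact one_pos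
  obtain ⟨ψ, hψ⟩ : ∃ ψ : ℝ, ψ = Complex.arg (u / v) := ⟨_, rfl⟩
  have h1 : u / v = Complex.exp (ψ * Complex.I) := by
    have := Complex.norm_mul_exp_arg_mul_I (u / v)
    rw [norm_div, hu, hv, div_one, Complex.ofReal_one, one_mul, ← hψ] at this
    exact this.symm
  have h2 : v * x = Complex.exp (((θ - ψ : ℝ) : ℂ) * Complex.I) := by
    have h3 : v * x * Complex.exp (ψ * Complex.I) = Complex.exp (θ * Complex.I) := by
      rw [← h1, ← he]
      field_simp
    have h4 : Complex.exp (((θ - ψ : ℝ) : ℂ) * Complex.I) * Complex.exp (ψ * Complex.I) =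
        Complex.exp (θ * Complex.I) := by
      rw [← Complex.exp_add]
      congr 1
      push_cast
      ring
    exact mul_right_cancel₀ (Complex.exp_ne_zero _) (h3.trans h4.symm)
  have h3 : |ψ| ≤ 2 * Real.pi * R / d := by
    have e : |2 * Real.pi| = 2 * Real.pi := abs_of_pos (by positivity)
    rw [← hψ, abs_div, abs_mul, abs_of_pos hd0, e, div_le_iff₀ (by positivity)] at hn
    rw [le_div_iff₀ hd0]
    linarith
  have h4 : |θ - ψ| ≤ Real.pi / M := by
    have h5 : |θ - ψ| ≤ |θ| + |ψ| := abs_sub _ _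
    have h6 : Real.pi / d + 2 * Real.pi * R / d ≤ Real.pi / M := by
      rw [← add_div, div_le_div_iff₀ hd0 hM0]
      nlinarith
    linarith
  have h5 := gs_ge hM h4
  rw [← h2] at h5
  have h6 : 0 ≤ 2 * (M : ℝ) / Real.pi := by positivity
  calc 4 * (M : ℝ) ^ 2 / Real.pi ^ 2 = (2 * M / Real.pi) ^ 2 := by ring
    _ ≤ _ := by gcongr

/-- the sum over the points -/
theorem sum_gs (Z : Multiset ℂ) (hZ : ∀ z ∈ Z, ‖z‖ = 1) (M : ℕ) {x : ℂ} (hx : ‖x‖ = 1) :
    (Z.map (fun v => ‖gs M (v * x)‖ ^ 2)).sum = M * Z.card +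
      2 * (∑ k ∈ Ico 1 M, ((M : ℂ) - k) * x ^ k * (Z.map (fun z => z ^ k)).sum).re := by
  induction Z using Multiset.induction_on with
  | empty => simp
  | cons a Z ih =>
    rw [Multiset.map_cons, Multiset.sum_cons, ih fun z hz => hZ z (Multiset.mem_cons_of_mem hz)]
    have ha := hZ a (Multiset.mem_cons_self a Z)
    rw [gs_sq M (x := a * x) (by rw [norm_mul, ha, hx, one_mul])]
    have h1 : ∑ k ∈ Ico 1 M, ((M : ℂ) - k) * x ^ k * ((a ::ₘ Z).map (fun z => z ^ k)).sum =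
        ∑ k ∈ Ico 1 M, ((M : ℂ) - k) * (a * x) ^ k +
          ∑ k ∈ Ico 1 M, ((M : ℂ) - k) * x ^ k * (Z.map (fun z => z ^ k)).sum := by
      rw [← sum_add_distrib]
      refine sum_congr rfl fun k _ => ?_
      rw [Multiset.map_cons, Multiset.sum_cons, mul_pow]
      ring
    rw [h1, Complex.add_re, Multiset.card_cons]
    push_cast
    ring

/-- the coefficients -/
noncomputable def bb (d M j k : ℕ) : ℂ := if k ≤ M then (((1 - k / M : ℝ)) : ℂ) * E d j ^ k else 0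

theorem bb_le (d M j k : ℕ) : ‖bb d M j k‖ ≤ 1 := by
  unfold bb
  split_ifs with h
  · rw [norm_mul, norm_pow, norm_E, one_pow, mul_one, Complex.norm_real, Real.norm_eq_abs, abs_le]
    have h1 : (k : ℝ) / M ≤ 1 := div_le_one_of_le₀ (by exact_mod_cast h) (Nat.cast_nonneg _)
    have h2 : 0 ≤ (k : ℝ) / M := by positivity
    constructor <;> linarith
  · simp

theorem main : S_X := by
  refine ⟨6000, by norm_num, fun d M R hM hR hd => ⟨bb d M, bb_le d M, fun Z hZ => ?_⟩⟩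
  have hpi := Real.pi_pos
  have hM0 : (0 : ℝ) < M := by exact_mod_cast hM
  have hd0 : (0 : ℝ) < d := by nlinarith
  have hd1 : 1 ≤ d := by
    have : (0 : ℕ) < d := by exact_mod_cast hd0
    omega
  have hex : ∀ u, u ∈ Z → ∃ j < d, ∃ θ : ℝ, |θ| ≤ Real.pi / d ∧ u * E d j = Complex.exp (θ * Complex.I) :=
    fun u hu => exists_j hd1 (hZ u hu)
  choose! J hJ θ hθ he using hex
  obtain ⟨W, hW⟩ : ∃ W : ℕ → ℝ, ∀ j, W j = (Z.map (fun v => ‖gs M (v * E d j)‖ ^ 2)).sum := ⟨_, fun _ => rfl⟩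
  obtain ⟨c, hc⟩ : ∃ c : ℝ, c = 4 * (M : ℝ) ^ 2 / Real.pi ^ 2 := ⟨_, rfl⟩
  have hc0 : 0 < c := by rw [hc]; positivity
  have hnear : ∀ u ∈ Z, (near R d Z u : ℝ) * c ≤ W (J u) := by
    intro u hu
    rw [hW]
    unfold near
    refine count_le Z _ _ c (fun v => by positivity) fun v hv hp => ?_
    rw [hc]
    exact big hM hR hd (hZ u hu) (hZ v hv) (norm_E _ _) (hθ u hu) (he u hu) hp
  have hfib : ∀ j ∈ range d, (Z.countP (fun u => J u = j) : ℝ) * c ≤ W j := by
    intro j _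
    rw [hW]
    refine count_le Z (fun u => J u = j) (fun v => ‖gs M (v * E d j)‖ ^ 2) c (fun v => by positivity) fun v hv hp => ?_
    have h1 := he v hv
    have hp' : J v = j := hp
    rw [hp'] at h1
    rw [hc]
    refine big hM hR hd (hZ v hv) (hZ v hv) (norm_E _ _) (hθ v hv) h1 ?_
    have hv0 : v ≠ 0 := by rw [← norm_pos_iff, hZ v hv]; exact one_pos
    rw [div_self hv0, Complex.arg_one]
    simpa using hR
  obtain ⟨X, hX⟩ : ∃ X : ℕ → ℝ, ∀ j, X j = W j / c := ⟨_, fun _ => rfl⟩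
  have hW0 : ∀ j, 0 ≤ W j := by
    intro j
    rw [hW]
    have := count_le Z (fun _ => False) (fun v => ‖gs M (v * E d j)‖ ^ 2) 0 (fun v => by positivity)
      (fun v _ h => h.elim)
    simpa using this
  have hX0 : ∀ j, 0 ≤ X j := fun j => by rw [hX]; exact div_nonneg (hW0 j) hc0.le
  have h1 : nsq R d Z ≤ (Z.map (fun u => X (J u) ^ 2)).sum := by
    unfold nsq
    refine Multiset.sum_map_le_sum_map _ _ fun u hu => ?_
    have h2 : (near R d Z u : ℝ) ≤ X (J u) := by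
      rw [hX, le_div_iff₀ hc0]
      exact hnear u hu
    gcongr
  rw [sum_fibre Z J d (fun j => X j ^ 2) hJ] at h1
  refine h1.trans ?_
  rw [mul_sum]
  refine sum_le_sum fun j hj => ?_
  have h2 : (Z.countP (fun u => J u = j) : ℝ) ≤ X j := by
    rw [hX, le_div_iff₀ hc0]
    exact hfib j hj
  obtain ⟨T, hT⟩ : ∃ T : ℝ, T = ‖∑ k ∈ Ico 1 M, bb d M j k * (Z.map (fun z => z ^ k)).sum‖ := ⟨_, rfl⟩
  have hT0 : 0 ≤ T := by rw [hT]; exact norm_nonneg _
  have h3 : W j ≤ M * Z.card + 2 * (M * T) := by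
    rw [hW, sum_gs Z hZ M (norm_E d j)]
    have h4 : ∑ k ∈ Ico 1 M, ((M : ℂ) - k) * E d j ^ k * (Z.map (fun z => z ^ k)).sum =
        (M : ℂ) * ∑ k ∈ Ico 1 M, bb d M j k * (Z.map (fun z => z ^ k)).sum := by
      rw [mul_sum]
      refine sum_congr rfl fun k hk => ?_
      rw [mem_Ico] at hk
      unfold bb
      rw [if_pos hk.2.le]
      have h5 : (M : ℂ) ≠ 0 := by exact_mod_cast hM0.ne'
      push_cast
      field_simp
    rw [h4]
    have h5 : ((M : ℂ) * ∑ k ∈ Ico 1 M, bb d M j k * (Z.map (fun z => z ^ k)).sum).re ≤ M * T := by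
      refine (Complex.re_le_norm _).trans ?_
      rw [norm_mul, Complex.norm_natCast, hT]
    linarith
  obtain ⟨A, hA⟩ : ∃ A : ℝ, A = (Z.card : ℝ) / M := ⟨_, rfl⟩
  obtain ⟨S, hS⟩ : ∃ S : ℝ, S = T / M := ⟨_, rfl⟩
  have hA0 : 0 ≤ A := by rw [hA]; positivity
  have hS0 : 0 ≤ S := by rw [hS]; positivity
  have h6 : X j ≤ 5 / 2 * (A + 2 * S) := by
    rw [hX, div_le_iff₀ hc0]
    have h7 : W j ≤ (M : ℝ) ^ 2 * (A + 2 * S) := by
      refine h3.trans (le_of_eq ?_)
      rw [hA, hS]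
      field_simp
    have h8 : (M : ℝ) ^ 2 ≤ 5 / 2 * c := by
      rw [hc]
      have h9 : Real.pi ^ 2 ≤ 10 := by nlinarith [Real.pi_lt_d2, Real.pi_pos]
      have h10 : 5 / 2 * (4 * (M : ℝ) ^ 2 / Real.pi ^ 2) = 10 * (M : ℝ) ^ 2 / Real.pi ^ 2 := by ring
      rw [h10, le_div_iff₀ (by positivity)]
      nlinarith [sq_nonneg (M : ℝ)]
    calc W j ≤ (M : ℝ) ^ 2 * (A + 2 * S) := h7
      _ ≤ (5 / 2 * c) * (A + 2 * S) := by gcongr
      _ = _ := by ring
  have h7 : (Z.countP (fun u => J u = j) : ℝ) * X j ^ 2 ≤ 1 + X j ^ 4 := by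
    have h8 : (Z.countP (fun u => J u = j) : ℝ) * X j ^ 2 ≤ X j * X j ^ 2 := by gcongr
    have h9 : X j * X j ^ 2 ≤ 1 + X j ^ 4 := by nlinarith [sq_nonneg (X j ^ 2 - X j), sq_nonneg (X j), hX0 j, sq_nonneg (X j - 1), sq_nonneg (X j ^ 2 - 1)]
    linarith
  have h8 : X j ^ 4 ≤ 40 * (A + 2 * S) ^ 4 := by
    calc X j ^ 4 ≤ (5 / 2 * (A + 2 * S)) ^ 4 := pow_le_pow_left₀ (hX0 j) h6 4
      _ = 625 / 16 * (A + 2 * S) ^ 4 := by ring
      _ ≤ 40 * (A + 2 * S) ^ 4 := by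
        have : 0 ≤ (A + 2 * S) ^ 4 := by positivity
        linarith
  have h9 : (A + 2 * S) ^ 4 ≤ 8 * (A ^ 4 + 16 * S ^ 4) := by
    have h10 : (A + 2 * S) ^ 2 ≤ 2 * (A ^ 2 + 4 * S ^ 2) := by nlinarith [sq_nonneg (A - 2 * S)]
    have h11 : ((A + 2 * S) ^ 2) ^ 2 ≤ (2 * (A ^ 2 + 4 * S ^ 2)) ^ 2 := by gcongr
    have h12 : (A ^ 2 + 4 * S ^ 2) ^ 2 ≤ 2 * (A ^ 4 + 16 * S ^ 4) := by
      nlinarith [sq_nonneg (A ^ 2 - 4 * S ^ 2)]
    calc (A + 2 * S) ^ 4 = ((A + 2 * S) ^ 2) ^ 2 := by ring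
      _ ≤ (2 * (A ^ 2 + 4 * S ^ 2)) ^ 2 := h11
      _ = 4 * (A ^ 2 + 4 * S ^ 2) ^ 2 := by ring
      _ ≤ _ := by linarith
  have e1 : ((Z.card : ℝ) / M) ^ 4 = A ^ 4 := by rw [hA]
  have e2 : ‖∑ k ∈ Ico 1 M, bb d M j k * (Z.map (fun z => z ^ k)).sum‖ ^ 4 / (M : ℝ) ^ 4 = S ^ 4 := by
    rw [hS, ← hT, div_pow]
  rw [e1, e2]
  have hA4 : 0 ≤ A ^ 4 := by positivity
  have hS4 : 0 ≤ S ^ 4 := by positivity
  linarith

end Pool.Agent.H65.AH
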